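import Pool.Agent.H80.Rho.G1

/-!
RHO module G3: total cost, from the cost of one prime (helper80).
-/

set_option autoImplicit false

open Finset Real

namespace Pool.Agent.H85.Rho

/-- the cost of all primes `q`, from the statement of `cost_one` -/
theorem cost_of (w : ℕ) (hone : ∃ C : ℝ, 0 < C ∧ ∃ y0 : ℕ, ∀ y : ℕ, y0 ≤ y →
      ∀ q ∈ pr (PP y) (QQ y),
    ∃ c : ℕ, (((Finset.Icc 1 y).filter (fun n => n ≡ c [MOD q] ∧
        ∀ p ∈ pr w (PP y), ¬ p ∣ n)).card : ℝ) ≤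
      C * (y / q) / (Real.log y * (Real.log (Real.log y)) ^ (1 / 2 : ℝ)))
    (ε : ℝ) (hε : 0 < ε) : ∃ y0 : ℕ, ∀ y : ℕ, y0 ≤ y → ∃ c : ℕ → ℕ,
    (∑ q ∈ pr (PP y) (QQ y),
      (((Finset.Icc 1 y).filter (fun n => n ≡ c q [MOD q] ∧
        ∀ p ∈ pr w (PP y), ¬ p ∣ n)).card : ℝ)) ≤ ε * y / (Real.log y) ^ 2 := by
  obtain ⟨C1, hC1, y1, h1⟩ := hone
  obtain ⟨C2, hC2, h2⟩ := recip_sum
  -- the numerical conditions
  have hlogy : Filter.Tendsto (fun y : ℕ => Real.log (y : ℝ)) Filter.atTop Filter.atTop :=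
    Real.tendsto_log_atTop.comp tendsto_natCast_atTop_atTop
  have hev1 : ∀ᶠ y : ℕ in Filter.atTop, 1 ≤ Real.log (Real.log (y : ℝ)) :=
    (Real.tendsto_log_atTop.comp hlogy).eventually_ge_atTop 1
  have hev2 : ∀ᶠ y : ℕ in Filter.atTop,
      Real.log 2 + 2 * Real.log (Real.log (y : ℝ)) ≤ Real.log y / 2 := by
    have : ∀ᶠ u : ℝ in Filter.atTop, Real.log 2 + 2 * Real.log u ≤ u / 2 := by
      have h3 : Filter.Tendsto (fun u : ℝ => Real.log u / u) Filter.atTop (nhds 0) := by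
        have := Real.isLittleO_log_id_atTop.tendsto_div_nhds_zero
        simpa using this
      filter_upwards [h3.eventually_lt_const (show (0 : ℝ) < 1 / 8 by norm_num),
        Filter.eventually_ge_atTop (8 : ℝ)] with u hu hu8
      rw [div_lt_iff₀ (by linarith)] at hu
      have := Real.log_two_lt_d9
      linarith
    exact hlogy.eventually this
  have hev3 : ∀ᶠ y : ℕ in Filter.atTop,
      2 * C1 * C2 * (1 + Real.log 16 + Real.log (Real.log (y : ℝ)) ^ (1 / 4 : ℝ)) /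
        Real.log (Real.log (y : ℝ)) ^ (1 / 2 : ℝ) ≤ ε := by
    have : ∀ᶠ v : ℝ in Filter.atTop,
        2 * C1 * C2 * (1 + Real.log 16 + v ^ (1 / 4 : ℝ)) / v ^ (1 / 2 : ℝ) ≤ ε := by
      have h3 : Filter.Tendsto (fun v : ℝ => v ^ (-(1 / 4) : ℝ)) Filter.atTop (nhds 0) :=
        tendsto_rpow_neg_atTop (by norm_num)
      have h4 : Filter.Tendsto (fun v : ℝ => v ^ (-(1 / 2) : ℝ)) Filter.atTop (nhds 0) :=
        tendsto_rpow_neg_atTop (by norm_num)
      have h5 : Filter.Tendsto (fun v : ℝ => 2 * C1 * C2 * ((1 + Real.log 16) * v ^ (-(1 / 2) : ℝ) +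
          v ^ (-(1 / 4) : ℝ))) Filter.atTop (nhds 0) := by
        have := ((h4.const_mul (1 + Real.log 16)).add h3).const_mul (2 * C1 * C2)
        simpa using this
      filter_upwards [h5.eventually_lt_const hε, Filter.eventually_gt_atTop (0 : ℝ)] with v hv hv0
      refine le_of_eq_of_le ?_ hv.le
      rw [Real.rpow_neg hv0.le, Real.rpow_neg hv0.le]
      have h6 : v ^ (1 / 2 : ℝ) = v ^ (1 / 4 : ℝ) * v ^ (1 / 4 : ℝ) := by
        rw [← Real.rpow_add hv0]; norm_num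
      rw [h6]
      have h7 : 0 < v ^ (1 / 4 : ℝ) := Real.rpow_pos_of_pos hv0 _
      field_simp
    exact (Real.tendsto_log_atTop.comp hlogy).eventually this
  obtain ⟨y2, hy2⟩ := Filter.eventually_atTop.mp (hev1.and (hev2.and hev3))
  refine ⟨max (max y1 y2) 2, fun y hy => ?_⟩
  have hyy1 : y1 ≤ y := (le_max_left _ _).trans ((le_max_left _ _).trans hy)
  have hyy2 : y2 ≤ y := (le_max_right _ _).trans ((le_max_left _ _).trans hy)
  have hy3 : 2 ≤ y := (le_max_right _ _).trans hy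
  obtain ⟨hv1, hv2, hv3⟩ := hy2 y hyy2
  have hy0 : (0 : ℝ) < y := by exact_mod_cast (by omega : 0 < y)
  have hone' := h1 y hyy1
  choose! c hc using hone'
  refine ⟨c, ?_⟩
  have hTT : TT (y : ℝ) = Real.log y * Real.exp ((Real.log (Real.log y)) ^ (1 / 4 : ℝ)) := rfl
  set u := Real.log (y : ℝ) with hu
  set v := Real.log u with hv
  have hu0 : 0 < u := by
    by_contra hcon
    push Not at hcon
    have h3 : 0 ≤ u := Real.log_natCast_nonneg y
    have : u = 0 := le_antisymm hcon h3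
    rw [this, Real.log_zero] at hv
    linarith
  have hu2 : 2 < u := by
    have h3 : Real.exp 1 ≤ u := by
      rw [← Real.exp_log hu0]
      exact Real.exp_le_exp.mpr hv1
    have := Real.exp_one_gt_d9
    linarith
  have hv0 : 0 < v := by linarith
  have hv4 : 0 < v ^ (1 / 4 : ℝ) := Real.rpow_pos_of_pos hv0 _
  have hv42 : v ^ (1 / 2 : ℝ) = v ^ (1 / 4 : ℝ) * v ^ (1 / 4 : ℝ) := by
    rw [← Real.rpow_add hv0]; norm_num
  have hv4le : v ^ (1 / 4 : ℝ) ≤ v := by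
    calc v ^ (1 / 4 : ℝ) ≤ v ^ (1 : ℝ) := Real.rpow_le_rpow_of_exponent_le hv1 (by norm_num)
      _ = v := Real.rpow_one v
  have hv20 : 0 < v ^ (1 / 2 : ℝ) := Real.rpow_pos_of_pos hv0 _
  set E := Real.exp (v ^ (1 / 4 : ℝ)) with hE
  have hE1 : 1 ≤ E := Real.one_le_exp hv4.le
  have hT0 : 0 < TT (y : ℝ) := by rw [hTT]; positivity
  -- `2 T ≤ exp(u/2)`
  have hT2 : 2 * TT (y : ℝ) ≤ Real.exp (u / 2) := by
    have h3 : Real.log (2 * TT (y : ℝ)) ≤ u / 2 := by
      rw [hTT, Real.log_mul (by norm_num) (by positivity), Real.log_mul (by positivity)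
        (by positivity), hE, Real.log_exp]
      linarith
    calc 2 * TT (y : ℝ) = Real.exp (Real.log (2 * TT (y : ℝ))) :=
          (Real.exp_log (by positivity)).symm
      _ ≤ _ := Real.exp_le_exp.mpr h3
  have hyexp : (y : ℝ) = Real.exp (u / 2) * Real.exp (u / 2) := by
    rw [← Real.exp_add, add_halves, hu, Real.exp_log hy0]
  have he2 : 2 ≤ Real.exp (u / 2) := by
    have := Real.add_one_le_exp (u / 2)
    linarith
  -- `P ≥ y / (2 T)`
  have hdiv : Real.exp (u / 2) ≤ y / (2 * TT (y : ℝ)) := by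
    rw [le_div_iff₀ (by positivity)]
    calc Real.exp (u / 2) * (2 * TT (y : ℝ)) ≤ Real.exp (u / 2) * Real.exp (u / 2) :=
          mul_le_mul_of_nonneg_left hT2 (by positivity)
      _ = y := hyexp.symm
  have hPreal : (y : ℝ) / (2 * TT (y : ℝ)) ≤ (PP y : ℕ) := by
    have h3 : (y : ℝ) / TT (y : ℝ) < (PP y : ℕ) + 1 := Nat.lt_floor_add_one _
    have h4 : (y : ℝ) / TT (y : ℝ) = 2 * (y / (2 * TT (y : ℝ))) := by field_simp
    linarith
  have hPexp : Real.exp (u / 2) ≤ (PP y : ℕ) := hdiv.trans hPreal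
  have hP2 : 2 ≤ PP y := by
    have : (2 : ℝ) ≤ (PP y : ℕ) := he2.trans hPexp
    exact_mod_cast this
  have hP0 : (0 : ℝ) < (PP y : ℕ) := by exact_mod_cast (by omega : 0 < PP y)
  have hlogP : u / 2 ≤ Real.log (PP y : ℕ) := by
    rw [Real.le_log_iff_exp_le hP0]; exact hPexp
  have hPQ : PP y ≤ QQ y := by
    apply Nat.floor_le_floor
    rw [div_le_div_iff₀ hT0 hu0, hTT]
    have : (y : ℝ) * u ≤ (y : ℝ) * u * (8 * E) := by
      apply le_mul_of_one_le_right (by positivity)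
      linarith
    nlinarith
  have hQreal : ((QQ y : ℕ) : ℝ) ≤ 8 * y / u := Nat.floor_le (by positivity)
  have hratio : ((QQ y : ℕ) : ℝ) / (PP y : ℕ) ≤ 16 * E := by
    rw [div_le_iff₀ hP0]
    calc ((QQ y : ℕ) : ℝ) ≤ 8 * y / u := hQreal
      _ = 16 * E * (y / (2 * TT (y : ℝ))) := by rw [hTT]; field_simp; norm_num
      _ ≤ _ := mul_le_mul_of_nonneg_left hPreal (by positivity)
  have hlogratio : Real.log (((QQ y : ℕ) : ℝ) / (PP y : ℕ)) ≤ Real.log 16 + v ^ (1 / 4 : ℝ) := by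
    have hQ0 : (0 : ℝ) < (QQ y : ℕ) := by exact_mod_cast (by omega : 0 < QQ y)
    calc Real.log (((QQ y : ℕ) : ℝ) / (PP y : ℕ)) ≤ Real.log (16 * E) :=
          Real.log_le_log (by positivity) hratio
      _ = _ := by rw [Real.log_mul (by norm_num) (by positivity), hE, Real.log_exp]
  have hrecip := h2 (PP y) (QQ y) hP2 hPQ
  have hl16 : 0 < Real.log 16 := Real.log_pos (by norm_num)
  calc (∑ q ∈ pr (PP y) (QQ y),
      (((Finset.Icc 1 y).filter (fun n => n ≡ c q [MOD q] ∧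
        ∀ p ∈ pr w (PP y), ¬ p ∣ n)).card : ℝ))
      ≤ ∑ q ∈ pr (PP y) (QQ y), C1 * (y / q) / (u * v ^ (1 / 2 : ℝ)) :=
        Finset.sum_le_sum fun q hq => hc q hq
    _ = (C1 * y / (u * v ^ (1 / 2 : ℝ))) * ∑ q ∈ pr (PP y) (QQ y), (1 : ℝ) / q := by
        rw [Finset.mul_sum]
        apply Finset.sum_congr rfl
        intro q _
        ring
    _ ≤ (C1 * y / (u * v ^ (1 / 2 : ℝ))) *
        (C2 * (1 + Real.log (((QQ y : ℕ) : ℝ) / (PP y : ℕ))) / Real.log (PP y : ℕ)) :=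
        mul_le_mul_of_nonneg_left hrecip (by positivity)
    _ ≤ (C1 * y / (u * v ^ (1 / 2 : ℝ))) *
        (C2 * (1 + (Real.log 16 + v ^ (1 / 4 : ℝ))) / (u / 2)) := by
        apply mul_le_mul_of_nonneg_left _ (by positivity)
        apply div_le_div₀ (by positivity) _ (by positivity) hlogP
        apply mul_le_mul_of_nonneg_left _ hC2.le
        linarith
    _ = (2 * C1 * C2 * (1 + Real.log 16 + v ^ (1 / 4 : ℝ)) / v ^ (1 / 2 : ℝ)) * (y / u ^ 2) := by
        field_simp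
        ring
    _ ≤ ε * (y / u ^ 2) := mul_le_mul_of_nonneg_right hv3 (by positivity)
    _ = ε * y / u ^ 2 := by ring

end Pool.Agent.H85.Rho
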