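import Pool.Agent.H85.Rho.Defs

/-!
RHO module G1: reciprocal sums of primes in `(a,b]` by dyadic blocks (helper80).
-/

set_option autoImplicit false

open Finset Real

namespace Pool.Agent.H85.Rho

theorem block_sum (a x : ℕ) (ha : 2 ≤ a) (hax : a ≤ x) :
    ∑ q ∈ pr x (2 * x), (1 : ℝ) / q ≤ 2 * Real.log 4 / Real.log a := by
  have hx : (0 : ℝ) < x := by exact_mod_cast (by omega : 0 < x)
  have hla : 0 < Real.log a := Real.log_pos (by exact_mod_cast (by omega : 1 < a))
  have h1 : ∀ q ∈ pr x (2 * x), (1 : ℝ) / q ≤ Real.log q / (x * Real.log a) := by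
    intro q hq
    obtain ⟨⟨h1, h2⟩, h3⟩ := mem_pr.mp hq
    have hq0 : (0 : ℝ) < q := by exact_mod_cast (by omega : 0 < q)
    have hxq : (x : ℝ) ≤ q := by exact_mod_cast h1.le
    have haq : Real.log a ≤ Real.log q :=
      Real.log_le_log (by exact_mod_cast (by omega : 0 < a)) (by exact_mod_cast (by omega : a ≤ q))
    rw [div_le_div_iff₀ hq0 (by positivity), one_mul]
    calc (x : ℝ) * Real.log a ≤ q * Real.log q := mul_le_mul hxq haq hla.le hq0.le
      _ = _ := by ring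
  calc ∑ q ∈ pr x (2 * x), (1 : ℝ) / q ≤ ∑ q ∈ pr x (2 * x), Real.log q / (x * Real.log a) :=
        Finset.sum_le_sum h1
    _ = (∑ q ∈ pr x (2 * x), Real.log q) / (x * Real.log a) := by rw [Finset.sum_div]
    _ ≤ (Real.log 4 * (2 * x)) / (x * Real.log a) := by
        apply div_le_div_of_nonneg_right _ (by positivity)
        have h2 := Chebyshev.theta_le_log4_mul_x (x := 2 * x) (by positivity)
        refine le_trans ?_ h2
        rw [Chebyshev.theta_eq_sum_Icc]
        apply Finset.sum_le_sum_of_subset_of_nonneg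
        · intro q hq
          obtain ⟨⟨h1, h2⟩, h3⟩ := mem_pr.mp hq
          rw [Finset.mem_filter, Finset.mem_Icc]
          refine ⟨⟨by omega, ?_⟩, h3⟩
          apply Nat.le_floor
          exact_mod_cast h2
        · intro q _ _
          exact Real.log_natCast_nonneg q
    _ = 2 * Real.log 4 / Real.log a := by field_simp

theorem blocks_sum (a : ℕ) (ha : 2 ≤ a) (n : ℕ) :
    ∑ q ∈ pr a (a * 2 ^ n), (1 : ℝ) / q ≤ n * (2 * Real.log 4 / Real.log a) := by
  induction n with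
  | zero => simp [pr]
  | succ n ih =>
    have h1 : pr a (a * 2 ^ (n + 1)) ⊆ pr a (a * 2 ^ n) ∪ pr (a * 2 ^ n) (2 * (a * 2 ^ n)) := by
      intro q hq
      obtain ⟨⟨h1, h2⟩, h3⟩ := mem_pr.mp hq
      rw [Finset.mem_union, mem_pr, mem_pr]
      have h4 : a * 2 ^ (n + 1) = 2 * (a * 2 ^ n) := by ring
      by_cases h : q ≤ a * 2 ^ n
      · exact Or.inl ⟨⟨h1, h⟩, h3⟩
      · exact Or.inr ⟨⟨by omega, by omega⟩, h3⟩
    have hpos : ∀ s : Finset ℕ, 0 ≤ ∑ q ∈ s, (1 : ℝ) / q :=
      fun s => Finset.sum_nonneg fun q _ => by positivity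
    calc ∑ q ∈ pr a (a * 2 ^ (n + 1)), (1 : ℝ) / q
        ≤ ∑ q ∈ pr a (a * 2 ^ n) ∪ pr (a * 2 ^ n) (2 * (a * 2 ^ n)), (1 : ℝ) / q :=
          Finset.sum_le_sum_of_subset_of_nonneg h1 fun q _ _ => by positivity
      _ ≤ ∑ q ∈ pr a (a * 2 ^ n), (1 : ℝ) / q +
          ∑ q ∈ pr (a * 2 ^ n) (2 * (a * 2 ^ n)), (1 : ℝ) / q := by
          rw [← Finset.sum_union_inter]
          exact le_add_of_nonneg_right (hpos _)
      _ ≤ n * (2 * Real.log 4 / Real.log a) + 2 * Real.log 4 / Real.log a := by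
          apply add_le_add ih
          apply block_sum a _ ha
          exact Nat.le_mul_of_pos_right _ (by positivity)
      _ = _ := by push_cast; ring

theorem recip_sum : ∃ C : ℝ, 0 < C ∧ ∀ a b : ℕ, 2 ≤ a → a ≤ b →
    ∑ q ∈ pr a b, (1 : ℝ) / q ≤ C * (1 + Real.log (b / a)) / Real.log a := by
  refine ⟨4, by norm_num, fun a b ha hab => ?_⟩
  have ha0 : (0 : ℝ) < a := by exact_mod_cast (by omega : 0 < a)
  have hla : 0 < Real.log a := Real.log_pos (by exact_mod_cast (by omega : 1 < a))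
  have hl2 : 0 < Real.log 2 := Real.log_pos (by norm_num)
  have hba : (1 : ℝ) ≤ b / a := by
    rw [le_div_iff₀ ha0, one_mul]; exact_mod_cast hab
  have hlba : 0 ≤ Real.log (b / a) := Real.log_nonneg hba
  set n := ⌈Real.log (b / a) / Real.log 2⌉₊ with hn
  have h1 : (n : ℝ) < Real.log (b / a) / Real.log 2 + 1 := Nat.ceil_lt_add_one (by positivity)
  have h2 : b ≤ a * 2 ^ n := by
    have h3 : Real.log (b / a) / Real.log 2 ≤ n := Nat.le_ceil _
    rw [div_le_iff₀ hl2] at h3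
    have h4 : Real.log (b / a) ≤ Real.log (2 ^ n) := by rw [Real.log_pow]; exact h3
    have h5 : (b : ℝ) / a ≤ 2 ^ n := (Real.log_le_log_iff (by positivity) (by positivity)).mp h4
    rw [div_le_iff₀ ha0] at h5
    have h6 : (b : ℝ) ≤ ((a * 2 ^ n : ℕ) : ℝ) := by push_cast; linarith
    exact_mod_cast h6
  have h3 : pr a b ⊆ pr a (a * 2 ^ n) := by
    intro q hq
    obtain ⟨⟨h1, h4⟩, h3⟩ := mem_pr.mp hq
    exact mem_pr.mpr ⟨⟨h1, h4.trans h2⟩, h3⟩
  have hlog4 : Real.log 4 = 2 * Real.log 2 := by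
    rw [show (4 : ℝ) = 2 ^ 2 by norm_num, Real.log_pow]; norm_num
  calc ∑ q ∈ pr a b, (1 : ℝ) / q ≤ ∑ q ∈ pr a (a * 2 ^ n), (1 : ℝ) / q :=
        Finset.sum_le_sum_of_subset_of_nonneg h3 fun q _ _ => by positivity
    _ ≤ n * (2 * Real.log 4 / Real.log a) := blocks_sum a ha n
    _ ≤ (Real.log (b / a) / Real.log 2 + 1) * (2 * Real.log 4 / Real.log a) := by
        apply mul_le_mul_of_nonneg_right h1.le
        rw [hlog4]; positivity
    _ = 4 * (Real.log 2 + Real.log (b / a)) / Real.log a := by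
        rw [hlog4]; field_simp; ring
    _ ≤ 4 * (1 + Real.log (b / a)) / Real.log a := by
        apply div_le_div_of_nonneg_right _ hla.le
        have : Real.log 2 ≤ 1 := by
          have := Real.log_two_lt_d9; linarith
        linarith

end Pool.Agent.H85.Rho
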